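import Pool.Agent.Results.MP_4b1228_nt.ThinFamilies
import Pool.Agent.V8H35.TF.Core

/-!
# The Ankeny–Chowla–Hasse and Lang families with `l²` and `(2 l)²` in place of `1` and `4`, for almost all
# primes `l`

For every `A`, all but `L / (log L) ^ A` of the `l ≤ L` have the following property: the families of primes
`(2 q n)² + l²` (`q` prime, `n > 1`; `l` odd) and `((2 n + 1) q)² + (2 l)²` (`q` prime, `n ≥ 1`) satisfy the
asymptotic formula of Hardy and Littlewood, uniformly for all `u` between `L ^ (1 + ε)` and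
`L ^ (3 / 2 - ε)` (`u` the bound for `2 q n` and `(2 n + 1) q`), with an error of at most
`C (l / φ(l))³ u / (log u)²`, that is with a relative error of `O((l / φ(l))⁴ / log u)`.  In particular the
formula holds, with a relative error `O(1 / log u)`, for all but `L / (log L) ^ A` of the PRIMES `l ≤ L`,
so for almost all prime numbers `l` (and for almost all the members of any set of integers with at least
`L / (log L) ^ (A / 2)` members up to `L`).

The starting result `ThinFamilies` has `ε L` exceptions and a relative error `ε`, so that it says nothing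
about prime `l`.

Proof: the starting library (`Pool.Agent.N782.GN.almost_all`) gives the number of the primes `m² + l²`,
`m ≤ u`, up to `u / (log L) ^ A`, with `L / (log L) ^ A` exceptions.  The primes `m² + l²` that do not belong
to the families have `m ≤ 2`, `m = 2 q` or `m = q` with `q` a prime.  The number of the primes `q ≤ U`
for which `(c q)² + l²` is prime is at most `C (l / φ(l))³ U / (log U)²` for EVERY `l ≥ 1`
(`Pool.Agent.V8H35.TF.D_bound`): an upper bound sieve of dimension two, uniform in `l`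
(`Pool.Agent.Y959.Sv.up_sieve`, starting library), where the product over the primes is compared with the
product of Mertens and with the singular series of `m² + 1`.
-/

set_option autoImplicit false

namespace Pool.Agent.Results.MP_4b1228_nt.AlmostAllPrimeShifts

open Finset Filter Topology

/-- The product which defines the constant, over the odd primes `w ≤ z` (`jacobiSym (-l²) w` is the Legendre symbol). -/
noncomputable def product (l z : ℕ) : ℝ :=
  ∏ w ∈ (Icc 3 z).filter Nat.Prime, (1 - (jacobiSym (-(l : ℤ) ^ 2) w : ℝ) / ((w : ℝ) - 1))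

/-- The product over the odd primes, in increasing order, converges to `H`. -/
def IsConstant (l : ℕ) (H : ℝ) : Prop := Tendsto (product l) atTop (𝓝 H)

open Classical in
/-- The number of the integers `m ≤ u` of the form `m = 2 q n`, `q` prime, `n > 1`, for which `m² + l²` is a prime. For `l = 1`:
the number of the primes of the set `𝒜` of the problem with `m ≤ u`. -/
noncomputable def countA (l : ℕ) (u : ℝ) : ℕ :=
  ((Icc 1 ⌊u⌋₊).filter (fun m : ℕ => (∃ q n : ℕ, q.Prime ∧ 1 < n ∧ m = 2 * q * n) ∧ (m ^ 2 + l ^ 2).Prime)).card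

open Classical in
/-- The number of the integers `m ≤ u` of the form `m = (2 n + 1) q`, `q` prime, `n ≥ 1`, for which `m² + (2 l)²` is a prime.
For `l = 1`: the number of the primes of the set `ℬ` of the problem with `m ≤ u`. -/
noncomputable def countB (l : ℕ) (u : ℝ) : ℕ :=
  ((Icc 1 ⌊u⌋₊).filter
    (fun m : ℕ => (∃ q n : ℕ, q.Prime ∧ 1 ≤ n ∧ m = (2 * n + 1) * q) ∧ (m ^ 2 + (2 * l) ^ 2).Prime)).card

/-- The expected number `(1 / 2) H ∫_2^u dt / log t`. -/
noncomputable def expected (H u : ℝ) : ℝ := 1 / 2 * H * ∫ t in (2 : ℝ)..u, 1 / Real.log t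

/-- The conclusion for `l`: the product converges to a positive number `H`, and for all real `u` from `L ^ (1 + ε)` to
`L ^ (3 / 2 - ε)` the count for the first family (if `l` is odd) and the count for the second family differ from
`(1 / 2) H ∫_2^u dt / log t` by at most `C (l / φ(l))³ u / (log u)²`. -/
def Good (C ε L : ℝ) (l : ℕ) : Prop :=
  ∃ H : ℝ, 0 < H ∧ IsConstant l H ∧ ∀ u : ℝ, L ^ (1 + ε) ≤ u → u ≤ L ^ (3 / 2 - ε) →
    (Odd l → |(countA l u : ℝ) - expected H u| ≤
      C * ((l : ℝ) / (Nat.totient l : ℝ)) ^ 3 * (u / Real.log u ^ 2)) ∧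
    |(countB l u : ℝ) - expected H u| ≤
      C * ((l : ℝ) / (Nat.totient l : ℝ)) ^ 3 * (u / Real.log u ^ 2)

/-- The conclusion for an odd prime `l`: the relative error is at most `C / log u`. -/
def GoodPrime (C ε L : ℝ) (l : ℕ) : Prop :=
  ∃ H : ℝ, 0 < H ∧ IsConstant l H ∧ ∀ u : ℝ, L ^ (1 + ε) ≤ u → u ≤ L ^ (3 / 2 - ε) →
    |(countA l u : ℝ) - expected H u| ≤ C / Real.log u * expected H u ∧
    |(countB l u : ℝ) - expected H u| ≤ C / Real.log u * expected H u

open Pool.Agent.N782.GN (SS)

/-- the relative error for a prime -/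
theorem rel {C E u a : ℝ} {l : ℕ} (hl : l.Prime) (h2 : l ≠ 2) (hC : 0 < C) (hu : 4 ≤ u)
    (hE : E = 1 / 2 * SS l * ∫ t in (2 : ℝ)..u, 1 / Real.log t)
    (h : |a - E| ≤ C * ((l : ℝ) / (Nat.totient l : ℝ)) ^ 3 * (u / Real.log u ^ 2)) :
    |a - E| ≤ (C * 32 / SS 1) / Real.log u * E := by
  have hS1 : 0 < SS 1 := (Pool.Agent.N782.GN.c_ssl 1 (by norm_num)).2
  have hl3 : 3 ≤ l := by
    have := hl.two_le
    omega
  have hlR : (3 : ℝ) ≤ l := by exact_mod_cast hl3
  have hphi : (Nat.totient l : ℝ) = l - 1 := by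
    rw [Nat.totient_prime hl, Nat.cast_sub hl.one_lt.le, Nat.cast_one]
  have hlogu : 0 < Real.log u := Real.log_pos (by linarith)
  have hr : (l : ℝ) / (Nat.totient l : ℝ) ≤ 3 / 2 := by
    rw [hphi, div_le_div_iff₀ (by linarith) (by norm_num)]
    linarith
  have hr' : 2 / 3 ≤ (Nat.totient l : ℝ) / l := by
    rw [hphi, div_le_div_iff₀ (by norm_num) (by linarith)]
    linarith
  have hr3 : ((l : ℝ) / (Nat.totient l : ℝ)) ^ 3 ≤ 4 := by
    have h0 : 0 ≤ (l : ℝ) / (Nat.totient l : ℝ) := by positivity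
    calc ((l : ℝ) / (Nat.totient l : ℝ)) ^ 3 ≤ (3 / 2) ^ 3 := pow_le_pow_left₀ h0 hr 3
      _ ≤ 4 := by norm_num
  have hSS : SS 1 * (2 / 3) ≤ SS l :=
    (mul_le_mul_of_nonneg_left hr' hS1.le).trans (Pool.Agent.N792.ACH.SS_ge (by omega))
  have hli : u / Real.log u / 2 ≤ ∫ t in (2 : ℝ)..u, 1 / Real.log t := Pool.Agent.N792.ACH.li_ge hu
  have hx0 : 0 < u / Real.log u := by positivity
  have hEge : SS 1 / 8 * (u / Real.log u) ≤ E := by
    rw [hE]
    calc SS 1 / 8 * (u / Real.log u) ≤ 1 / 2 * (SS 1 * (2 / 3)) * (u / Real.log u / 2) := by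
          have : 0 < SS 1 * (u / Real.log u) := by positivity
          linarith
      _ ≤ 1 / 2 * SS l * ∫ t in (2 : ℝ)..u, 1 / Real.log t := by
          apply mul_le_mul _ hli (by positivity)
          · have : 0 < SS l := lt_of_lt_of_le (by positivity) hSS
            positivity
          · linarith
  refine h.trans ?_
  have hT : 0 < u / Real.log u ^ 2 := by positivity
  calc C * ((l : ℝ) / (Nat.totient l : ℝ)) ^ 3 * (u / Real.log u ^ 2)
      ≤ C * 4 * (u / Real.log u ^ 2) := by gcongr
    _ = (C * 32 / SS 1) / Real.log u * (SS 1 / 8 * (u / Real.log u)) := by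
        field_simp
        ring
    _ ≤ _ := by gcongr

open Classical in
/-- **Main theorem.**  For all `ε > 0` and `A` there is `C` such that, for all large `L`, all but at most
`L / (log L) ^ A` of the integers `1 ≤ l ≤ L` satisfy the formulas of Hardy and Littlewood for the two
families, for all `u` from `L ^ (1 + ε)` to `L ^ (3 / 2 - ε)`, up to `C (l / φ(l))³ u / (log u)²`; and all
but at most `L / (log L) ^ A` of the odd primes `l ≤ L` satisfy them up to the factor `1 ± C / log u`. -/
theorem result (ε : ℝ) (hε : 0 < ε) (A : ℕ) :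
    ∃ C : ℝ, 0 < C ∧ ∃ L₀ : ℝ, ∀ L : ℝ, L₀ ≤ L →
      (((Icc 1 ⌊L⌋₊).filter (fun l => ¬ Good C ε L l)).card : ℝ) ≤ L / Real.log L ^ A ∧
      (((Icc 1 ⌊L⌋₊).filter (fun l => l.Prime ∧ l ≠ 2 ∧ ¬ GoodPrime C ε L l)).card : ℝ) ≤
        L / Real.log L ^ A := by
  obtain ⟨C, hC, L₀, h⟩ := Pool.Agent.V8H35.TF.main hε A
  have hS1 : 0 < SS 1 := (Pool.Agent.N782.GN.c_ssl 1 (by norm_num)).2
  have hC' : C ≤ max C (C * 32 / SS 1) := le_max_left _ _
  refine ⟨max C (C * 32 / SS 1), lt_of_lt_of_le hC hC', max L₀ 4, fun L hL => ?_⟩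
  have hLL0 : L₀ ≤ L := (le_max_left _ _).trans hL
  have hL4 : 4 ≤ L := (le_max_right _ _).trans hL
  have key : ∀ l ∈ Icc 1 ⌊L⌋₊, Pool.Agent.V8H35.TF.Good C ε L l → Good C ε L l := by
    intro l hl hg
    rw [mem_Icc] at hl
    obtain ⟨h1, h2⟩ := Pool.Agent.N782.GN.c_ssl (l : ℤ) (by omega)
    refine ⟨SS l, h2, ?_, fun u hu1 hu2 => hg u hu1 hu2⟩
    refine h1.congr fun z => ?_
    exact (ThinFamilies.product_eq l z).symm
  constructor
  · refine le_trans ?_ (h L hLL0)
    rw [Nat.cast_le]
    apply card_le_card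
    intro l hl
    rw [mem_filter] at hl ⊢
    refine ⟨hl.1, fun hg => hl.2 ?_⟩
    obtain ⟨H, h1, h2, h3⟩ := key l hl.1 hg
    refine ⟨H, h1, h2, fun u hu1 hu2 => ?_⟩
    have hu4 : 4 ≤ u := by
      refine hL4.trans (le_trans ?_ hu1)
      calc L = L ^ (1 : ℝ) := (Real.rpow_one L).symm
        _ ≤ L ^ (1 + ε) := Real.rpow_le_rpow_of_exponent_le (by linarith) (by linarith)
    have hT : 0 ≤ u / Real.log u ^ 2 := by positivity
    obtain ⟨h4, h5⟩ := h3 u hu1 hu2
    exact ⟨fun ho => (h4 ho).trans (by gcongr), h5.trans (by gcongr)⟩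
  · refine le_trans ?_ (h L hLL0)
    rw [Nat.cast_le]
    apply card_le_card
    intro l hl
    rw [mem_filter] at hl ⊢
    obtain ⟨hl1, hlp, hl2, hbad⟩ := hl
    refine ⟨hl1, fun hg => hbad ?_⟩
    have hl1' := hl1
    rw [mem_Icc] at hl1'
    obtain ⟨h1, h2⟩ := Pool.Agent.N782.GN.c_ssl (l : ℤ) (by omega)
    refine ⟨SS l, h2, ?_, fun u hu1 hu2 => ?_⟩
    · refine h1.congr fun z => ?_
      exact (ThinFamilies.product_eq l z).symm
    have hu4 : 4 ≤ u := by
      refine hL4.trans (le_trans ?_ hu1)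
      calc L = L ^ (1 : ℝ) := (Real.rpow_one L).symm
        _ ≤ L ^ (1 + ε) := Real.rpow_le_rpow_of_exponent_le (by linarith) (by linarith)
    have hlogu : 0 < Real.log u := Real.log_pos (by linarith)
    obtain ⟨h4, h5⟩ := hg u hu1 hu2
    have hE0 : 0 ≤ expected (SS l) u := by
      have hli : u / Real.log u / 2 ≤ ∫ t in (2 : ℝ)..u, 1 / Real.log t :=
        Pool.Agent.N792.ACH.li_ge hu4
      have : 0 ≤ u / Real.log u / 2 := by positivity
      unfold expected
      have h6 : 0 ≤ ∫ t in (2 : ℝ)..u, 1 / Real.log t := this.trans hli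
      positivity
    have hmax : C * 32 / SS 1 / Real.log u * expected (SS l) u ≤
        max C (C * 32 / SS 1) / Real.log u * expected (SS l) u := by
      gcongr
      exact le_max_right _ _
    exact ⟨(rel hlp hl2 hC hu4 rfl (h4 (hlp.odd_of_ne_two hl2))).trans hmax,
      (rel hlp hl2 hC hu4 rfl h5).trans hmax⟩

end Pool.Agent.Results.MP_4b1228_nt.AlmostAllPrimeShifts
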