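import Pool.Agent.V8H2.MQ.Count

set_option autoImplicit false

/-!
# Strings of consecutive primes `q` at which the forms of Ankeny, Chowla, Hasse and Lang are almost prime
-/

namespace Pool.Agent.Results.MP_4b1228_nt.ConsecutivePrimes

open Filter Finset Polynomial

/-- `n > 1` has at most `r` prime factors, counted with multiplicity, all of them at least `w`. -/
def AlmostPrime (r : ℕ) (w : ℝ) (n : ℕ) : Prop :=
  1 < n ∧ n.primeFactorsList.length ≤ r ∧ ∀ l : ℕ, l.Prime → l ∣ n → w ≤ l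

/-- the prime number with index `i` (`pr 0 = 2`, `pr 1 = 3`, ...) -/
noncomputable def pr (i : ℕ) : ℕ := Nat.nth Nat.Prime i

/-- `c` is coprime to `d` and so are the numbers `(2 n c)² + 1`, `n ∈ 𝒜`, and `((2 n + 1) c)² + 4`, `n ∈ ℬ`. -/
def Coprimes (𝒜 ℬ : Finset ℕ) (c d : ℕ) : Prop :=
  c.Coprime d ∧ (∀ n ∈ 𝒜, ((2 * c * n) ^ 2 + 1).Coprime d) ∧ ∀ n ∈ ℬ, (((2 * n + 1) * c) ^ 2 + 4).Coprime d

/-- the product of the forms -/
noncomputable def f (𝒜 ℬ : Finset ℕ) : ℤ[X] :=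
  (∏ n ∈ 𝒜, (C ((2 * n : ℤ) ^ 2) * X ^ 2 + 1)) * ∏ n ∈ ℬ, (C ((2 * n + 1 : ℤ) ^ 2) * X ^ 2 + 4)

theorem f_eval (𝒜 ℬ : Finset ℕ) (x : ℤ) : (f 𝒜 ℬ).eval x =
    (∏ n ∈ 𝒜, ((2 * x * n) ^ 2 + 1)) * ∏ n ∈ ℬ, (((2 * n + 1) * x) ^ 2 + 4) := by
  unfold f
  rw [eval_mul, eval_prod, eval_prod]
  congr 1
  · apply prod_congr rfl
    intro n _
    simp
    ring
  · apply prod_congr rfl
    intro n _
    simp
    ring

theorem f_ne (𝒜 ℬ : Finset ℕ) (x : ℤ) : (f 𝒜 ℬ).eval x ≠ 0 := by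
  rw [f_eval]
  apply mul_ne_zero
  · exact prod_ne_zero_iff.2 fun n _ => by positivity
  · exact prod_ne_zero_iff.2 fun n _ => by positivity

theorem cop (𝒜 ℬ : Finset ℕ) (c d : ℕ) (h : Coprimes 𝒜 ℬ c d) (p : ℕ) (hp : p.Prime) (hpd : p ∣ d) :
    ¬ (p : ℤ) ∣ (c : ℤ) * (f 𝒜 ℬ).eval (c : ℤ) := by
  obtain ⟨h1, h2, h3⟩ := h
  have hpp := Nat.prime_iff_prime_int.1 hp
  have key : ∀ y : ℕ, y.Coprime d → ¬ (p : ℤ) ∣ (y : ℤ) := by
    intro y hy hd
    have h4 : p ∣ y := by exact_mod_cast hd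
    have h5 := Nat.dvd_gcd h4 hpd
    rw [hy] at h5
    exact hp.one_lt.ne' (Nat.dvd_one.1 h5)
  rw [f_eval]
  intro hd
  rcases hpp.dvd_mul.1 hd with hd | hd
  · exact key c h1 hd
  · rcases hpp.dvd_mul.1 hd with hd | hd
    · obtain ⟨n, hn, hd⟩ := (hpp.dvd_finsetProd_iff _).1 hd
      exact key _ (h2 n hn) (by exact_mod_cast hd)
    · obtain ⟨n, hn, hd⟩ := (hpp.dvd_finsetProd_iff _).1 hd
      exact key _ (h3 n hn) (by exact_mod_cast hd)

/-- a single form `(2 x n)² + 1` or `((2 n + 1) x)² + 4` has no local obstruction -/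
theorem single (n : ℕ) (l : ℕ) (hl : l.Prime) :
    (∃ c : ℕ, Coprimes {n} ∅ c l) ∧ ∃ c : ℕ, Coprimes ∅ {n} c l := by
  have hodd : l ∣ 4 → l = 2 := fun h => by
    have h1 : l ∣ 2 ^ 2 := by simpa using h
    exact (Nat.prime_dvd_prime_iff_eq hl Nat.prime_two).1 (hl.dvd_of_dvd_pow h1)
  have cc : ∀ y : ℕ, ¬ l ∣ y → y.Coprime l := fun y h => ((Nat.Prime.coprime_iff_not_dvd hl).2 h).symm
  have h1l : ¬ l ∣ 1 := fun h => hl.one_lt.ne' (Nat.dvd_one.1 h)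
  constructor
  · by_cases h : l ∣ (2 * 1 * n) ^ 2 + 1
    · refine ⟨2, cc _ ?_, fun y hy => ?_, by simp⟩
      · intro h2
        have h3 : l = 2 := (Nat.prime_dvd_prime_iff_eq hl Nat.prime_two).1 h2
        rw [h3] at h
        have e : (2 * 1 * n) ^ 2 + 1 = 2 * (2 * n ^ 2) + 1 := by ring
        rw [e] at h
        omega
      · rw [mem_singleton.1 hy]
        apply cc
        intro h2
        have e : 4 * ((2 * 1 * n) ^ 2 + 1) = ((2 * 2 * n) ^ 2 + 1) + 3 := by ring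
        have h3 : l ∣ 3 := (Nat.dvd_add_right h2).1 (e ▸ h.mul_left 4)
        have h4 : l = 3 := (Nat.prime_dvd_prime_iff_eq hl Nat.prime_three).1 h3
        rw [h4] at h
        have e2 : (2 * 1 * n) ^ 2 + 1 = 3 * n ^ 2 + (n ^ 2 + 1) := by ring
        rw [e2] at h
        have h5 : 3 ∣ n ^ 2 + 1 := (Nat.dvd_add_right (dvd_mul_right 3 _)).1 h
        have h6 : n % 3 = 0 ∨ n % 3 = 1 ∨ n % 3 = 2 := by omega
        have h7 : (n ^ 2 + 1) % 3 = ((n % 3) ^ 2 + 1) % 3 := by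
          simp [Nat.add_mod, Nat.pow_mod]
        have h8 := Nat.mod_eq_zero_of_dvd h5
        rcases h6 with h6 | h6 | h6 <;> rw [h7, h6] at h8 <;> omega
    · exact ⟨1, cc _ h1l, fun y hy => by rw [mem_singleton.1 hy]; exact cc _ h, by simp⟩
  · by_cases h : l ∣ ((2 * n + 1) * 1) ^ 2 + 4
    · refine ⟨2, cc _ ?_, by simp, fun y hy => ?_⟩
      · intro h2
        have h3 : l = 2 := (Nat.prime_dvd_prime_iff_eq hl Nat.prime_two).1 h2
        rw [h3] at h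
        have e : ((2 * n + 1) * 1) ^ 2 + 4 = 2 * (2 * n ^ 2 + 2 * n + 2) + 1 := by ring
        rw [e] at h
        omega
      · rw [mem_singleton.1 hy]
        apply cc
        intro h2
        have e : 4 * (((2 * n + 1) * 1) ^ 2 + 4) = (((2 * n + 1) * 2) ^ 2 + 4) + 12 := by ring
        have h3 : l ∣ 12 := (Nat.dvd_add_right h2).1 (e ▸ h.mul_left 4)
        have h4 : l ∣ 4 * 3 := by simpa using h3
        rcases (Nat.Prime.dvd_mul hl).1 h4 with h5 | h5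
        · rw [hodd h5] at h
          have e : ((2 * n + 1) * 1) ^ 2 + 4 = 2 * (2 * n ^ 2 + 2 * n + 2) + 1 := by ring
          rw [e] at h
          omega
        · have h6 : l = 3 := (Nat.prime_dvd_prime_iff_eq hl Nat.prime_three).1 h5
          rw [h6] at h
          have h7 : (((2 * n + 1) * 1) ^ 2 + 4) % 3 = (((2 * (n % 3) + 1) * 1) ^ 2 + 4) % 3 := by
            simp [Nat.add_mod, Nat.mul_mod, Nat.pow_mod]
          have h8 := Nat.mod_eq_zero_of_dvd h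
          have h9 : n % 3 = 0 ∨ n % 3 = 1 ∨ n % 3 = 2 := by omega
          rcases h9 with h9 | h9 | h9 <;> rw [h7, h9] at h8 <;> omega
    · exact ⟨1, cc _ h1l, by simp, fun y hy => by rw [mem_singleton.1 hy]; exact cc _ h⟩

/-- **Strings of consecutive primes `q` with many almost prime values `(2 q n)² + 1` and `((2 n + 1) q)² + 4`.** Let
`𝒜`, `ℬ` be finite sets of positive integers without local obstruction: for every prime `l` there is an integer `c`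
such that `l` divides neither `c` nor any `(2 c n)² + 1`, `n ∈ 𝒜`, nor any `((2 n + 1) c)² + 4`, `n ∈ ℬ` (this
always holds if `𝒜` and `ℬ` have one element together, see `single`). Let `m ≥ 0`, `u, d ≥ 1` (for instance `u = d = 1`), and let
`a` and the numbers `(2 a n)² + 1`, `n ∈ 𝒜`, `((2 n + 1) a)² + 4`, `n ∈ ℬ`, be coprime to `d`. There are `K`, `R`, `B`
and `δ > 0` such that for every `v` and all large `N` there are at least `N / (log N) ^ B` numbers `k` such that the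
primes with the `m + 1` consecutive indices `u k + v, ..., u (k + m) + v` of the class of `v` modulo `u` lie in
`(N, 2 N]` and in an interval of length at most `K`, are all `≡ a` modulo `d`, and for each of these primes `q` ALL the
numbers `(2 q n)² + 1`, `n ∈ 𝒜`, and `((2 n + 1) q)² + 4`, `n ∈ ℬ`, have at most `R` prime factors, all of them at
least `N ^ δ`. For `u = 1` these are `m + 1` consecutive primes. -/
theorem result (𝒜 ℬ : Finset ℕ) (hloc : ∀ l : ℕ, l.Prime → ∃ c : ℕ, Coprimes 𝒜 ℬ c l) (m u d a : ℕ)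
    (hu : 1 ≤ u) (hd : 1 ≤ d) (ha : Coprimes 𝒜 ℬ a d) :
    ∃ (K R B : ℕ) (δ : ℝ), 0 < δ ∧ ∀ v : ℕ, ∀ᶠ N : ℕ in atTop, ∃ T : Finset ℕ,
      (N : ℝ) / Real.log N ^ B ≤ T.card ∧ ∀ k ∈ T,
        N < pr (u * k + v) ∧ pr (u * (k + m) + v) ≤ 2 * N ∧ pr (u * (k + m) + v) ≤ pr (u * k + v) + K ∧
        ∀ i ≤ m, ∀ q : ℕ, q = pr (u * (k + i) + v) → q ≡ a [MOD d] ∧
          (∀ n ∈ 𝒜, 0 < n → AlmostPrime R ((N : ℝ) ^ δ) ((2 * q * n) ^ 2 + 1)) ∧
          ∀ n ∈ ℬ, AlmostPrime R ((N : ℝ) ^ δ) (((2 * n + 1) * q) ^ 2 + 4) := by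
  classical
  have hadm : ∀ p : ℕ, p.Prime → ∃ n : ℤ, ¬ (p : ℤ) ∣ n * (f 𝒜 ℬ).eval n := by
    intro p hp
    obtain ⟨c, hc⟩ := hloc p hp
    exact ⟨c, cop 𝒜 ℬ c p hc p hp dvd_rfl⟩
  obtain ⟨K, R, B, δ, hδ, hmain⟩ := Pool.Agent.V8H2.MQ.index_count (f 𝒜 ℬ) (fun n _ => f_ne 𝒜 ℬ n) hadm d a
    (by omega) (fun p hp hpd => cop 𝒜 ℬ a d ha p hp hpd) u m hu
  refine ⟨K, R, B, δ, hδ, fun v => ?_⟩
  filter_upwards [hmain v] with N hN
  obtain ⟨T, hT, hk⟩ := hN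
  refine ⟨T, hT, fun k hkT => ?_⟩
  obtain ⟨h1, h2, h3, h4⟩ := hk k hkT
  refine ⟨h1, h2, h3, fun i hi q hq => ?_⟩
  obtain ⟨h5, h6⟩ := h4 i hi
  have hq' : Nat.nth Nat.Prime (u * (k + i) + v) = q := hq.symm
  rw [hq'] at h5 h6
  have hq2 : 2 ≤ q := by
    rw [hq]
    exact (Nat.prime_nth_prime _).two_le
  rw [f_eval] at h6
  refine ⟨h5, fun n hn hn0 => ?_, fun n hn => ?_⟩
  · have hdvd : (((2 * q * n) ^ 2 + 1 : ℕ) : ℤ) ∣ (∏ n ∈ 𝒜, ((2 * (q : ℤ) * n) ^ 2 + 1)) *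
        ∏ n ∈ ℬ, (((2 * (n : ℤ) + 1) * q) ^ 2 + 4) := by
      apply Dvd.dvd.mul_right
      have := dvd_prod_of_mem (fun n : ℕ => (2 * (q : ℤ) * n) ^ 2 + 1) hn
      push_cast
      exact this
    obtain ⟨-, g1, g2⟩ := Pool.Agent.R498.MP.AP_dvd R ((N : ℝ) ^ δ) _ _ h6 hdvd
    rw [Int.natAbs_natCast] at g1
    refine ⟨?_, g1, fun l hl hld => g2 l hl (by exact_mod_cast hld)⟩
    have : 0 < (2 * q * n) ^ 2 := by positivity
    omega
  · have hdvd : ((((2 * n + 1) * q) ^ 2 + 4 : ℕ) : ℤ) ∣ (∏ n ∈ 𝒜, ((2 * (q : ℤ) * n) ^ 2 + 1)) *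
        ∏ n ∈ ℬ, (((2 * (n : ℤ) + 1) * q) ^ 2 + 4) := by
      apply Dvd.dvd.mul_left
      have := dvd_prod_of_mem (fun n : ℕ => ((2 * (n : ℤ) + 1) * q) ^ 2 + 4) hn
      push_cast
      exact this
    obtain ⟨-, g1, g2⟩ := Pool.Agent.R498.MP.AP_dvd R ((N : ℝ) ^ δ) _ _ h6 hdvd
    rw [Int.natAbs_natCast] at g1
    refine ⟨by omega, g1, fun l hl hld => g2 l hl (by exact_mod_cast hld)⟩

end Pool.Agent.Results.MP_4b1228_nt.ConsecutivePrimes
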