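import Pool.Agent.V8H34.LF.Main

set_option autoImplicit false

/-!
# A positive proportion of the primes `q` with almost prime values `(2 q n)² + 1`, `((2 n + 1) q)² + 4` is
followed by such primes in the same residue class
-/

namespace Pool.Agent.Results.MP_4b1228_nt.PositiveProportion

open Filter Finset

/-- `n > 1` has at most `r` prime factors, counted with multiplicity, all of them at least `w`. -/
def AlmostPrime (r : ℕ) (w : ℝ) (n : ℕ) : Prop :=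
  1 < n ∧ n.primeFactorsList.length ≤ r ∧ ∀ l : ℕ, l.Prime → l ∣ n → w ≤ l

/-- `c` is coprime to `d` and so are the numbers `(2 n c)² + 1`, `n ∈ 𝒜`, and `((2 n + 1) c)² + 4`, `n ∈ ℬ`. -/
def Coprimes (𝒜 ℬ : Finset ℕ) (c d : ℕ) : Prop :=
  c.Coprime d ∧ (∀ n ∈ 𝒜, ((2 * c * n) ^ 2 + 1).Coprime d) ∧ ∀ n ∈ ℬ, (((2 * n + 1) * c) ^ 2 + 4).Coprime d

open Classical in
/-- The primes `q` of `(N, 2 N]` such that all prime factors of all the numbers `(2 q n)² + 1`, `n ∈ 𝒜`, and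
`((2 n + 1) q)² + 4`, `n ∈ ℬ`, are at least `N ^ δ`. -/
noncomputable def S (𝒜 ℬ : Finset ℕ) (δ : ℝ) (N : ℕ) : Finset ℕ :=
  (Ioc N (2 * N)).filter (fun q => q.Prime ∧
    (∀ n ∈ 𝒜, ∀ l : ℕ, l.Prime → l ∣ (2 * q * n) ^ 2 + 1 → (N : ℝ) ^ δ ≤ l) ∧
    ∀ n ∈ ℬ, ∀ l : ℕ, l.Prime → l ∣ ((2 * n + 1) * q) ^ 2 + 4 → (N : ℝ) ^ δ ≤ l)

open Classical in
/-- The elements `q` of `A` such that `q` and the `m` elements of `A` following `q` (which exist) are all congruent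
to `a` modulo `d` and lie in an interval of length at most `D`. -/
noncomputable def Run (A : Finset ℕ) (m d a : ℕ) (D : ℝ) : Finset ℕ :=
  A.filter (fun q => ∃ x : ℕ → ℕ, x 0 = q ∧
    (∀ j ≤ m, x j ∈ A ∧ x j ≡ a [MOD d] ∧ (x j : ℝ) ≤ q + D) ∧
    ∀ j < m, x j < x (j + 1) ∧ ∀ y ∈ A, ¬ (x j < y ∧ y < x (j + 1)))

/-- the pairs `(2 n, 1)`, `n ∈ 𝒜`, and `(2 n + 1, 2)`, `n ∈ ℬ` -/
def prs (𝒜 ℬ : Finset ℕ) : Finset (ℕ × ℕ) :=
  𝒜.image (fun n => (2 * n, 1)) ∪ ℬ.image (fun n => (2 * n + 1, 2))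

theorem card_prs (𝒜 ℬ : Finset ℕ) : (prs 𝒜 ℬ).card = 𝒜.card + ℬ.card := by
  unfold prs
  rw [card_union_of_disjoint, card_image_of_injective, card_image_of_injective]
  · intro a b h
    have h1 := congrArg Prod.fst h
    simp only at h1
    omega
  · intro a b h
    have h1 := congrArg Prod.fst h
    simp only at h1
    omega
  · rw [disjoint_left]
    intro x hx hy
    obtain ⟨a, -, rfl⟩ := mem_image.1 hx
    obtain ⟨b, -, hb⟩ := mem_image.1 hy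
    have h1 := congrArg Prod.snd hb
    simp at h1

theorem GI_eq (𝒜 ℬ : Finset ℕ) (c : ℕ) : Pool.Agent.V8H34.LF.GI (prs 𝒜 ℬ) (c : ℤ) =
    (∏ n ∈ 𝒜, (((2 * c * n) ^ 2 + 1 : ℕ) : ℤ)) * ∏ n ∈ ℬ, ((((2 * n + 1) * c) ^ 2 + 4 : ℕ) : ℤ) := by
  unfold Pool.Agent.V8H34.LF.GI prs
  rw [prod_union, prod_image, prod_image]
  · congr 1
    · apply prod_congr rfl
      intro n _
      unfold Pool.Agent.V8H34.LF.Q
      push_cast
      ring
    · apply prod_congr rfl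
      intro n _
      unfold Pool.Agent.V8H34.LF.Q
      push_cast
      ring
  · intro a _ b _ h
    have h1 := congrArg Prod.fst h
    simp only at h1
    omega
  · intro a _ b _ h
    have h1 := congrArg Prod.fst h
    simp only at h1
    omega
  · rw [disjoint_left]
    intro x hx hy
    obtain ⟨a, -, rfl⟩ := mem_image.1 hx
    obtain ⟨b, -, hb⟩ := mem_image.1 hy
    have h1 := congrArg Prod.snd hb
    simp at h1

theorem dvd_GI (𝒜 ℬ : Finset ℕ) (c p : ℕ) (hp : p.Prime) :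
    (p : ℤ) ∣ Pool.Agent.V8H34.LF.GI (prs 𝒜 ℬ) (c : ℤ) ↔
      (∃ n ∈ 𝒜, p ∣ (2 * c * n) ^ 2 + 1) ∨ ∃ n ∈ ℬ, p ∣ ((2 * n + 1) * c) ^ 2 + 4 := by
  have hpp := Nat.prime_iff_prime_int.1 hp
  rw [GI_eq, hpp.dvd_mul, hpp.dvd_finsetProd_iff, hpp.dvd_finsetProd_iff]
  simp only [Int.natCast_dvd_natCast]

theorem cop (𝒜 ℬ : Finset ℕ) (c d : ℕ) (h : Coprimes 𝒜 ℬ c d) (p : ℕ) (hp : p.Prime) (hpd : p ∣ d) :
    ¬ (p : ℤ) ∣ (c : ℤ) * Pool.Agent.V8H34.LF.GI (prs 𝒜 ℬ) (c : ℤ) := by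
  obtain ⟨h1, h2, h3⟩ := h
  have hpp := Nat.prime_iff_prime_int.1 hp
  have key : ∀ y : ℕ, y.Coprime d → ¬ p ∣ y := by
    intro y hy h4
    have h5 := Nat.dvd_gcd h4 hpd
    rw [hy] at h5
    exact hp.one_lt.ne' (Nat.dvd_one.1 h5)
  intro hd
  rcases hpp.dvd_mul.1 hd with hd | hd
  · exact key c h1 (by exact_mod_cast hd)
  · rw [dvd_GI 𝒜 ℬ c p hp] at hd
    rcases hd with ⟨n, hn, hd⟩ | ⟨n, hn, hd⟩
    · exact key _ (h2 n hn) hd
    · exact key _ (h3 n hn) hd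

theorem S_eq (𝒜 ℬ : Finset ℕ) (δ : ℝ) (N : ℕ) :
    S 𝒜 ℬ δ N = Pool.Agent.V8H2.MG.SP (Pool.Agent.V8H34.LF.GI (prs 𝒜 ℬ)) δ N := by
  classical
  ext q
  rw [Pool.Agent.V8H2.MG.mem_SP]
  unfold S
  rw [mem_filter, mem_Ioc]
  constructor
  · rintro ⟨⟨h1, h2⟩, h3, h4, h5⟩
    refine ⟨h1, h2, h3, fun l hl hd => ?_⟩
    rw [dvd_GI 𝒜 ℬ q l hl] at hd
    rcases hd with ⟨n, hn, hd⟩ | ⟨n, hn, hd⟩
    · exact h4 n hn l hl hd
    · exact h5 n hn l hl hd
  · rintro ⟨h1, h2, h3, h4⟩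
    exact ⟨⟨h1, h2⟩, h3, fun n hn l hl hd => h4 l hl ((dvd_GI 𝒜 ℬ q l hl).2 (Or.inl ⟨n, hn, hd⟩)),
      fun n hn l hl hd => h4 l hl ((dvd_GI 𝒜 ℬ q l hl).2 (Or.inr ⟨n, hn, hd⟩))⟩

theorem len_le (δ : ℝ) (hδ : 0 < δ) (N K n : ℕ) (hN : K ≤ N) (hN2 : 2 ≤ N) (hn0 : n ≠ 0) (hn : n ≤ K * N ^ 2)
    (h : ∀ l : ℕ, l.Prime → l ∣ n → (N : ℝ) ^ δ ≤ l) : n.primeFactorsList.length ≤ ⌊3 / δ⌋₊ := by
  obtain ⟨w, hw⟩ : ∃ w : ℕ, w = ⌈(N : ℝ) ^ δ⌉₊ := ⟨_, rfl⟩
  have h1 : w ^ n.primeFactorsList.length ≤ n := by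
    have h2 : w ^ n.primeFactorsList.length ≤ n.primeFactorsList.prod := by
      apply List.pow_card_le_prod
      intro x hx
      rw [hw]
      apply Nat.ceil_le.2
      exact h x (Nat.prime_of_mem_primeFactorsList hx) (Nat.dvd_of_mem_primeFactorsList hx)
    rwa [Nat.prod_primeFactorsList hn0] at h2
  apply Nat.le_floor
  rw [le_div_iff₀ hδ]
  obtain ⟨k, hk⟩ : ∃ k : ℕ, k = n.primeFactorsList.length := ⟨_, rfl⟩
  rw [← hk] at h1 ⊢
  have hN0 : (0 : ℝ) < N := by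
    have : 0 < N := by omega
    exact_mod_cast this
  have hlog : 0 < Real.log N := Real.log_pos (by
    have : 1 < N := by omega
    exact_mod_cast this)
  have h2 : ((N : ℝ) ^ δ) ^ k ≤ (N : ℝ) ^ 3 := by
    calc ((N : ℝ) ^ δ) ^ k ≤ (w : ℝ) ^ k := by
          apply pow_le_pow_left₀ (by positivity)
          rw [hw]
          exact Nat.le_ceil _
      _ ≤ (n : ℝ) := by exact_mod_cast h1
      _ ≤ (K : ℝ) * N ^ 2 := by exact_mod_cast hn
      _ ≤ (N : ℝ) * N ^ 2 := by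
          have : (K : ℝ) ≤ N := by exact_mod_cast hN
          gcongr
      _ = (N : ℝ) ^ 3 := by ring
  have h3 := Real.log_le_log (by positivity) h2
  rw [Real.log_pow, Real.log_pow, Real.log_rpow hN0] at h3
  have h4 : ((k : ℝ) * δ) * Real.log N ≤ 3 * Real.log N := by
    push_cast at h3
    linarith
  exact le_of_mul_le_mul_right h4 hlog

/-- **A positive proportion of runs.** Let `𝒜`, `ℬ` be finite sets of integers, `n ≥ 1` for `n ∈ 𝒜`, without local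
obstruction: for every prime `l` there is an integer `c` such that `l` divides neither `c` nor any `(2 c n)² + 1`,
`n ∈ 𝒜`, nor any `((2 n + 1) c)² + 4`, `n ∈ ℬ`. Let `g = |𝒜| + |ℬ|`. Let `m ≥ 0`, `d ≥ 1`, and let `a` and the
numbers `(2 a n)² + 1`, `n ∈ 𝒜`, `((2 n + 1) a)² + 4`, `n ∈ ℬ`, be coprime to `d`. There are `δ`, `c₁`, `c₂` with
`0 < δ ≤ 1 / 24` and `c₁, c₂ > 0` such that for the set `S` of the primes `q` in `(N, 2 N]` for which all prime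
factors of all the numbers `(2 q n)² + 1`, `n ∈ 𝒜`, and `((2 n + 1) q)² + 4`, `n ∈ ℬ`, are at least `N ^ δ`:
for all large `N` these numbers have at most `3 / δ` prime factors and
`c₁ N / (log N) ^ (g + 1) ≤ |S| ≤ c₂ N / (log N) ^ (g + 1)`; and for every `η > 0` there is `c > 0` such that for all
large `N`, for at least the proportion `c` of the `q ∈ S`, the prime `q` and the `m` next elements of `S` are all
`≡ a` modulo `d` and lie in an interval of length at most `η N / |S|`, i.e. at most `η` times the average distance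
of the elements of `S`. -/
theorem result (𝒜 ℬ : Finset ℕ) (h0 : ∀ n ∈ 𝒜, 1 ≤ n) (hloc : ∀ l : ℕ, l.Prime → ∃ c : ℕ, Coprimes 𝒜 ℬ c l)
    (m d a : ℕ) (hd : 1 ≤ d) (ha : Coprimes 𝒜 ℬ a d) :
    ∃ δ c₁ c₂ : ℝ, 0 < δ ∧ δ ≤ 1 / 24 ∧ 0 < c₁ ∧ 0 < c₂ ∧
      (∀ᶠ N : ℕ in atTop, c₁ * (N / Real.log N ^ (𝒜.card + ℬ.card + 1)) ≤ ((S 𝒜 ℬ δ N).card : ℝ) ∧
        ((S 𝒜 ℬ δ N).card : ℝ) ≤ c₂ * (N / Real.log N ^ (𝒜.card + ℬ.card + 1)) ∧
        ∀ q ∈ S 𝒜 ℬ δ N, (∀ n ∈ 𝒜, AlmostPrime ⌊3 / δ⌋₊ ((N : ℝ) ^ δ) ((2 * q * n) ^ 2 + 1)) ∧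
          ∀ n ∈ ℬ, AlmostPrime ⌊3 / δ⌋₊ ((N : ℝ) ^ δ) (((2 * n + 1) * q) ^ 2 + 4)) ∧
      ∀ η : ℝ, 0 < η → ∃ c : ℝ, 0 < c ∧ ∀ᶠ N : ℕ in atTop,
        c * ((S 𝒜 ℬ δ N).card : ℝ) ≤
          ((Run (S 𝒜 ℬ δ N) m d a (η * (N / (S 𝒜 ℬ δ N).card))).card : ℝ) := by
  classical
  obtain ⟨δ, c₁, c₂, hδ, hδ24, hc₁, hc₂, hS, hrun⟩ := Pool.Agent.V8H34.LF.main (prs 𝒜 ℬ)
    (by
      intro i hi
      unfold prs at hi
      rw [mem_union, mem_image, mem_image] at hi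
      rcases hi with ⟨n, hn, rfl⟩ | ⟨n, hn, rfl⟩
      · have := h0 n hn
        exact ⟨by simp only; omega, by simp⟩
      · exact ⟨by simp, by simp⟩)
    (by
      intro i hi
      unfold prs at hi
      rw [mem_union, mem_image, mem_image] at hi
      rcases hi with ⟨n, hn, rfl⟩ | ⟨n, hn, rfl⟩
      · simp
      · simp)
    (by
      intro i hi j hj hij
      unfold prs at hi hj
      rw [mem_union, mem_image, mem_image] at hi hj
      rcases hi with ⟨n, hn, rfl⟩ | ⟨n, hn, rfl⟩ <;> rcases hj with ⟨k, hk, rfl⟩ | ⟨k, hk, rfl⟩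
      · simp only
        intro h
        exact hij (by rw [show n = k by omega])
      · simp only
        omega
      · simp only
        omega
      · simp only
        intro h
        exact hij (by rw [show n = k by omega]))
    (by
      intro p hp
      obtain ⟨c, hc⟩ := hloc p hp
      exact ⟨c, cop 𝒜 ℬ c p hc p hp dvd_rfl⟩)
    m d a (by omega) (fun p hp hpd => cop 𝒜 ℬ a d ha p hp hpd)
  rw [card_prs] at hS
  simp only [← S_eq] at hS hrun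
  rw [card_prs] at hrun
  refine ⟨δ, c₁, c₂, hδ, hδ24, hc₁, hc₂, ?_, ?_⟩
  · obtain ⟨K, hK⟩ : ∃ K : ℕ, K = ∑ n ∈ 𝒜, ((4 * n) ^ 2 + 1) + ∑ n ∈ ℬ, ((2 * (2 * n + 1)) ^ 2 + 4) := ⟨_, rfl⟩
    filter_upwards [hS, eventually_ge_atTop K, eventually_ge_atTop 2] with N h1 h2 h3
    refine ⟨h1.1, h1.2, fun q hq => ?_⟩
    unfold S at hq
    rw [mem_filter, mem_Ioc] at hq
    obtain ⟨⟨hq1, hq2⟩, hqp, hqA, hqB⟩ := hq
    constructor
    · intro n hn
      have hn1 := h0 n hn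
      have hq0 := hqp.pos
      refine ⟨?_, ?_, hqA n hn⟩
      · have : 0 < (2 * q * n) ^ 2 := by positivity
        omega
      · apply len_le δ hδ N K _ h2 h3 (by positivity) _ (hqA n hn)
        have h4 : (4 * n) ^ 2 + 1 ≤ K := by
          rw [hK]
          exact (single_le_sum (f := fun n => (4 * n) ^ 2 + 1) (fun _ _ => Nat.zero_le _) hn).trans
            (Nat.le_add_right _ _)
        calc (2 * q * n) ^ 2 + 1 ≤ (2 * (2 * N) * n) ^ 2 + 1 * N ^ 2 := by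
              have : 1 ≤ N ^ 2 := by
                have : 0 < N ^ 2 := by positivity
                omega
              gcongr
              omega
          _ = ((4 * n) ^ 2 + 1) * N ^ 2 := by ring
          _ ≤ K * N ^ 2 := by gcongr
    · intro n hn
      have hq0 := hqp.pos
      refine ⟨?_, ?_, hqB n hn⟩
      · omega
      · apply len_le δ hδ N K _ h2 h3 (by positivity) _ (hqB n hn)
        have h4 : (2 * (2 * n + 1)) ^ 2 + 4 ≤ K := by
          rw [hK]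
          exact (single_le_sum (f := fun n => (2 * (2 * n + 1)) ^ 2 + 4) (fun _ _ => Nat.zero_le _) hn).trans
            (Nat.le_add_left _ _)
        calc ((2 * n + 1) * q) ^ 2 + 4 ≤ ((2 * n + 1) * (2 * N)) ^ 2 + 4 * N ^ 2 := by
              have : 1 ≤ N ^ 2 := by
                have : 0 < N ^ 2 := by positivity
                omega
              have h5 : ((2 * n + 1) * q) ^ 2 ≤ ((2 * n + 1) * (2 * N)) ^ 2 := by gcongr
              omega
          _ = ((2 * (2 * n + 1)) ^ 2 + 4) * N ^ 2 := by ring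
          _ ≤ K * N ^ 2 := by gcongr
  · intro η hη
    obtain ⟨c, hc, hev⟩ := hrun (η / c₂) (by positivity)
    refine ⟨c, hc, ?_⟩
    have hlogT : Tendsto (fun N : ℕ => Real.log N) atTop atTop :=
      Real.tendsto_log_atTop.comp (tendsto_natCast_atTop_atTop (R := ℝ))
    filter_upwards [hS, hev, hlogT.eventually_ge_atTop 1, eventually_ge_atTop 1] with N h1 h2 h3 h4
    obtain ⟨L, hL⟩ : ∃ L : ℝ, L = Real.log N ^ (𝒜.card + ℬ.card + 1) := ⟨_, rfl⟩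
    rw [← hL] at h1 h2
    have hL0 : 0 < L := by rw [hL]; positivity
    have hN0 : (0 : ℝ) < N := by exact_mod_cast h4
    have hS0 : (0 : ℝ) < (S 𝒜 ℬ δ N).card := lt_of_lt_of_le (by positivity) h1.1
    refine h2.trans ?_
    have hle : η / c₂ * L ≤ η * (N / (S 𝒜 ℬ δ N).card) := by
      have h5 : L / c₂ ≤ N / (S 𝒜 ℬ δ N).card := by
        rw [div_le_div_iff₀ hc₂ hS0]
        calc L * ((S 𝒜 ℬ δ N).card : ℝ) ≤ L * (c₂ * (N / L)) := by
              have := h1.2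
              gcongr
          _ = N * c₂ := by field_simp
      calc η / c₂ * L = η * (L / c₂) := by ring
        _ ≤ _ := by gcongr
    have : (Pool.Agent.V8H2.MG.Run (S 𝒜 ℬ δ N) m d a (η / c₂ * L)) ⊆
        Run (S 𝒜 ℬ δ N) m d a (η * (N / (S 𝒜 ℬ δ N).card)) := by
      intro q hq
      unfold Pool.Agent.V8H2.MG.Run at hq
      unfold Run
      rw [mem_filter] at hq ⊢
      obtain ⟨h6, x, h7, h8, h9⟩ := hq
      refine ⟨h6, x, h7, fun j hj => ?_, h9⟩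
      obtain ⟨g1, g2, g3⟩ := h8 j hj
      exact ⟨g1, g2, g3.trans (by linarith)⟩
    exact_mod_cast card_le_card this

end Pool.Agent.Results.MP_4b1228_nt.PositiveProportion
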