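import Pool.Agent.V8H10.AH.Main

/-!
# The Ankeny–Chowla–Hasse and Lang families with a general constant term: very small `m`

The sets `𝒜` and `ℬ` of the problem consist of the primes `m² + 1`, `m = 2 q n`, `q` prime, `n > 1`, and of
the primes `m² + 4`, `m = (2 n + 1) q`, `q` prime, `n ≥ 1`.  Here the constant term is a general `c ≤ X`
(for `c` odd the first family is used, for `c` even the second), and the primes `q` are taken from an
arbitrary set `Q` of primes with `∑ 1 / q = ∞`.  Let `C_c` be the constant of Hardy and Littlewood,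
the product of `1 - (-c / p) / (p - 1)` over the odd primes `p`.

**Theorem.**  For every `θ > 1 / 6`, every `δ > 0` and all large `X`: for all `y` from `X ^ θ` to `√X`,
all but `δ X` of the `c ≤ X` satisfy the asymptotic formula `(1 ± δ) C_c y / log X` for the number of the
`m ≤ y` of the family of `c` for which `m² + c` is a prime.

So already the `m ≤ X ^ θ`, for which `m²` is much smaller than `c`, produce the expected number of the
primes for almost all `c`.  The starting results (`ThinFamilies`) and `AlmostAllPrimeShifts` deal with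
`c = l²` and `c = (2 l)²` and with `m > l ^ (1 + ε)`, that is `m² > c ^ (1 + ε)`.

Proof.  The asymptotic formula for all the even `m` (polynomial `4 m² + c`), and for all the odd `m`
(polynomial `4 m² + 4 m + 1 + c`), is `Pool.Agent.V8H10.AS.final5`: the number of the pairs `(c, m)` weighted with
a character or a trigonometrical polynomial is computed with the circle method, where on the major arcs the
prime number theorem in almost all short intervals `[x, x + x ^ (1 / 6 + ε)]` and all progressions is used
(zero density estimates).  The even `m` outside of the family of `Q` have no prime factor `q ∈ Q`,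
`3 ≤ q < m / 2`; there are `o(y)` of them because of `∑ 1 / q = ∞`, and each of them gives at most
`π(2 X)` primes `m² + c`, `c ≤ X`: so they give less than `δ C_c y / log X` primes for almost all `c`, as
`C_c` is larger than a constant `τ(δ) > 0` for almost all `c`.
-/

set_option autoImplicit false

namespace Pool.Agent.Results.MP_4b1228_nt.ShortSegmentFamilies

open Finset Filter Topology

/-- The product which defines the constant, over the odd primes `p ≤ z` (`jacobiSym (-c) p` is the Legendre symbol). -/
noncomputable def product (c z : ℕ) : ℝ :=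
  ∏ p ∈ (Icc 3 z).filter Nat.Prime, (1 - (jacobiSym (-(c : ℤ)) p : ℝ) / ((p : ℝ) - 1))

/-- The product over the odd primes, in increasing order, converges to the positive number `C`. -/
def IsConstant (c : ℕ) (C : ℝ) : Prop := 0 < C ∧ Tendsto (product c) atTop (𝓝 C)

open Classical in
/-- The sum of `1 / q` over the primes `q` of the set `Q` diverges. -/
def Divergent (Q : Set ℕ) : Prop :=
  ¬ Summable (fun q : ℕ => if q.Prime ∧ q ∈ Q then (1 : ℝ) / q else 0)

open Classical in
/-- The number of the integers `1 ≤ m ≤ y` of the form `m = 2 q n`, `q ∈ Q` prime, `n > 1`, for which `m² + c` is a prime.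
For `c = 1` and `Q = ℕ`: the number of the primes of the set `𝒜` of the problem with `m ≤ y`. -/
noncomputable def countA (Q : Set ℕ) (c y : ℕ) : ℕ :=
  ((Icc 1 y).filter (fun m : ℕ =>
    (∃ q n : ℕ, q.Prime ∧ q ∈ Q ∧ 1 < n ∧ m = 2 * q * n) ∧ (m ^ 2 + c).Prime)).card

open Classical in
/-- The number of the integers `1 ≤ m ≤ y` of the form `m = (2 n + 1) q`, `q ∈ Q` prime, `n ≥ 1`, for which `m² + c` is a
prime. For `c = 4` and `Q = ℕ`: the number of the primes of the set `ℬ` of the problem with `m ≤ y`. -/
noncomputable def countB (Q : Set ℕ) (c y : ℕ) : ℕ :=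
  ((Icc 1 y).filter (fun m : ℕ =>
    (∃ q n : ℕ, q.Prime ∧ q ∈ Q ∧ 1 ≤ n ∧ m = (2 * n + 1) * q) ∧ (m ^ 2 + c).Prime)).card

/-- The conclusion for one `c`: the product converges to some `C > 0`, and the number of the members of the
first family (if `c` is odd) or of the second family (if `c` is even) with `m ≤ y` differs from
`C y / log X` by at most `δ` times this number. -/
def Good (Q : Set ℕ) (δ : ℝ) (X y c : ℕ) : Prop :=
  ∃ C : ℝ, IsConstant c C ∧
    (Odd c → |(countA Q c y : ℝ) - C * (y / Real.log X)| ≤ δ * (C * (y / Real.log X))) ∧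
    (Even c → |(countB Q c y : ℝ) - C * (y / Real.log X)| ≤ δ * (C * (y / Real.log X)))

/-- **Theorem.** Let `Q` be a set with `∑ 1 / q = ∞` over its primes, `θ > 1 / 6` and `δ > 0`. For all large `X` and
all `y` with `X ^ θ ≤ y ≤ √X`, all but at most `δ X` of the `c ≤ X` are good. -/
theorem result (Q : Set ℕ) (hQ : Divergent Q) (θ : ℝ) (hθ : 1 / 6 < θ) (δ : ℝ) (hδ : 0 < δ) :
    ∀ᶠ X : ℕ in atTop, ∀ y : ℕ, (X : ℝ) ^ θ ≤ y → y ^ 2 ≤ X →
      ∃ Bad ⊆ Icc 1 X, (Bad.card : ℝ) ≤ δ * X ∧ ∀ c ∈ Icc 1 X, c ∉ Bad → Good Q δ X y c := by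
  have h := Pool.Agent.V8H10.AH.main Q hQ θ hθ (min δ 1) (lt_min hδ one_pos) (min_le_right _ _)
  filter_upwards [h, eventually_ge_atTop 1] with X hX hX1 y hy1 hy2
  obtain ⟨Bad, hB, hBc, hG⟩ := hX y hy1 hy2
  have hX0 : (0 : ℝ) ≤ X := Nat.cast_nonneg X
  refine ⟨Bad, hB, hBc.trans (mul_le_mul_of_nonneg_right (min_le_left _ _) hX0), fun c hc hcB => ?_⟩
  obtain ⟨C, ⟨hC, hlim⟩, hA, hBB⟩ := hG c hc hcB
  have hlog : 0 ≤ Real.log X := Real.log_nonneg (by exact_mod_cast hX1)
  have h0 : 0 ≤ C * ((y : ℝ) / Real.log X) := by positivity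
  have h1 : min δ 1 * (C * ((y : ℝ) / Real.log X)) ≤ δ * (C * (y / Real.log X)) :=
    mul_le_mul_of_nonneg_right (min_le_left _ _) h0
  exact ⟨C, ⟨hC, hlim⟩, fun ho => (hA ho).trans h1, fun he => (hBB he).trans h1⟩

end Pool.Agent.Results.MP_4b1228_nt.ShortSegmentFamilies
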